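import Mathlib
import Pool.Agent.Q60.D3E.Stm2

/-!
# The endomorphism algebra of a simple abelian variety of CM type is a field of maximal degree
-/

set_option linter.unusedSectionVars false
set_option linter.unusedVariables false
set_option linter.style.longLine false

namespace Pool.Agent.Q177.D3E

open Module Pool.Agent.Q60.D3 Pool.Agent.Q60.D3E

section

variable (A : AV)

theorem per_smul (a : ℚ) (w : A.H) : A.per (a • w) = (a : ℂ) • A.per w := by
  have h := map_ratCast_smul A.per ℚ ℂ a w
  rwa [Rat.cast_id] at h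

theorem per_sum {R : Type} [Fintype R] (b : Basis R ℚ A.H) (w : A.H) :
    A.per w = ∑ s, ((b.equivFun w s : ℚ) : ℂ) • A.per (b s) := by
  conv_lhs => rw [← b.sum_equivFun w]
  rw [map_sum]
  exact Finset.sum_congr rfl fun s _ => per_smul A _ _

/-- The images of a rational basis are independent over the real numbers. -/
theorem li {R : Type} [Fintype R] (b : Basis R ℚ A.H) :
    LinearIndependent ℝ fun s => A.per (b s) := by
  have h1 : Fintype.card R = finrank ℝ A.T := by
    rw [finrank_real_of_complex, ← A.dim, finrank_eq_card_basis b]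
  refine linearIndependent_of_top_le_span_of_card_eq_finrank ?_ h1
  rw [← A.span, Submodule.span_le]
  rintro _ ⟨w, rfl⟩
  rw [per_sum A b w]
  refine Submodule.sum_mem _ fun s _ => ?_
  have h2 : ((b.equivFun w s : ℚ) : ℂ) • A.per (b s) =
      ((b.equivFun w s : ℚ) : ℝ) • A.per (b s) := by
    rw [← Complex.coe_smul]
    congr 1
  rw [h2]
  exact Submodule.smul_mem _ _ (Submodule.subset_span ⟨s, rfl⟩)

/-- The images of independent vectors are independent over the real numbers. -/
theorem liv {R : Type} (v : R → A.H) (hv : LinearIndependent ℚ v) :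
    LinearIndependent ℝ fun s => A.per (v s) := by
  classical
  have h1 : LinearIndepOn ℚ id (Set.range v) := hv.linearIndepOn_id
  have hfin : Finite (h1.extend (Set.subset_univ _)) := Module.Finite.finite_basis (Basis.extend h1)
  have hft : Fintype (h1.extend (Set.subset_univ _)) := Fintype.ofFinite _
  have h2 := li A (Basis.extend h1)
  have hm : ∀ i, v i ∈ h1.extend (Set.subset_univ _) := fun i =>
    h1.subset_extend (Set.subset_univ _) ⟨i, rfl⟩
  have h3 := h2.comp (fun i : R => (⟨v i, hm i⟩ : h1.extend (Set.subset_univ _))) (by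
    intro i j hij
    exact hv.injective (congrArg Subtype.val hij))
  have h4 : (fun s => A.per (v s)) = (fun s : h1.extend (Set.subset_univ _) => A.per ((Basis.extend h1) s)) ∘ (fun i : R => (⟨v i, hm i⟩ : h1.extend (Set.subset_univ _))) := by
    funext s
    simp [Basis.extend_apply_self]
  rw [h4]
  exact h3

theorem finrank_le (V : Submodule ℚ A.H) (W : Submodule ℝ A.T) (h : ∀ v ∈ V, A.per v ∈ W) :
    finrank ℚ V ≤ finrank ℝ W := by
  classical
  have b := finBasis ℚ V
  have h1 : LinearIndependent ℚ fun i => (b i : A.H) :=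
    b.linearIndependent.map' V.subtype (Submodule.ker_subtype V)
  have h2 := liv A _ h1
  have h3 := finrank_span_eq_card h2
  rw [Fintype.card_fin] at h3
  rw [← h3]
  have hT : FiniteDimensional ℝ A.T := FiniteDimensional.complexToReal A.T
  refine Submodule.finrank_mono ?_
  rw [Submodule.span_le]
  rintro _ ⟨i, rfl⟩
  exact h _ (b i).2

/-- The kernel of an endomorphism spans a complex subspace. -/
theorem ker_span (s : Module.End ℚ A.H) (hs : IsHom A A s) :
    ∀ x ∈ Submodule.span ℝ (A.per '' (LinearMap.ker s)),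
      Complex.I • x ∈ Submodule.span ℝ (A.per '' (LinearMap.ker s)) := by
  classical
  obtain ⟨C, hC⟩ := hs
  have hT : FiniteDimensional ℝ A.T := FiniteDimensional.complexToReal A.T
  have hle : Submodule.span ℝ (A.per '' (LinearMap.ker s)) ≤ LinearMap.ker (C.restrictScalars ℝ) := by
    rw [Submodule.span_le]
    rintro _ ⟨w, hw, rfl⟩
    have hw' : s w = 0 := hw
    change C (A.per w) = 0
    rw [hC, hw', map_zero]
  have h1 := finrank_le A (LinearMap.ker s) (Submodule.span ℝ (A.per '' (LinearMap.ker s)))
    (fun v hv => Submodule.subset_span ⟨v, hv, rfl⟩)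
  have h2 := finrank_le A (LinearMap.range s) (LinearMap.range (C.restrictScalars ℝ)) (by
    rintro _ ⟨w, rfl⟩
    exact ⟨A.per w, hC w⟩)
  have h3 := LinearMap.finrank_range_add_finrank_ker s
  have h4 := LinearMap.finrank_range_add_finrank_ker (C.restrictScalars ℝ)
  have h5 : finrank ℝ A.T = finrank ℚ A.H := by
    rw [finrank_real_of_complex, A.dim]
  have heq : Submodule.span ℝ (A.per '' (LinearMap.ker s)) = LinearMap.ker (C.restrictScalars ℝ) := by
    refine Submodule.eq_of_le_of_finrank_le hle ?_
    omega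
  intro x hx
  rw [heq] at hx ⊢
  have hx' : C x = 0 := hx
  change C (Complex.I • x) = 0
  rw [map_smul, hx', smul_zero]

/-- The subalgebra of the endomorphisms. -/
def homAlg : Subalgebra ℚ (Module.End ℚ A.H) where
  carrier := {s | IsHom A A s}
  mul_mem' := by
    rintro s t ⟨C, hC⟩ ⟨E, hE⟩
    refine ⟨C ∘ₗ E, fun w => ?_⟩
    rw [LinearMap.comp_apply, hE, hC]
    rfl
  add_mem' := by
    rintro s t ⟨C, hC⟩ ⟨E, hE⟩
    refine ⟨C + E, fun w => ?_⟩
    rw [LinearMap.add_apply, hE, hC, ← map_add]
    rfl
  algebraMap_mem' := by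
    intro q
    refine ⟨(q : ℂ) • LinearMap.id, fun w => ?_⟩
    rw [LinearMap.smul_apply, LinearMap.id_apply, ← per_smul]
    rfl

end

/-- A subalgebra which is a field, as a number field. -/
theorem mk_field {E : Type} [Ring E] [Algebra ℚ E] (S : Subalgebra ℚ E) (hfin : FiniteDimensional ℚ S)
    (hf : IsField S) :
    ∃ (K : Type) (_ : Field K) (_ : NumberField K) (e : K ≃+* S), finrank ℚ K = finrank ℚ S := by
  have hE : ∃ (K : Type) (_ : Field K), Nonempty (K ≃+* S) := ⟨S, hf.toField, ⟨RingEquiv.refl _⟩⟩
  obtain ⟨K, iK, ⟨e⟩⟩ := hE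
  have hnt : Nontrivial S := e.injective.nontrivial
  have hcz : CharZero S := algebraRat.charZero S
  have hczK : CharZero K := charZero_of_injective_ringHom (f := e.symm.toRingHom) e.symm.injective
  let f : K ≃ₗ[ℚ] S := LinearEquiv.ofBijective (AddMonoidHom.toRatLinearMap e.toAddEquiv.toAddMonoidHom) e.bijective
  have hK : FiniteDimensional ℚ K := Module.Finite.equiv f.symm
  refine ⟨K, iK, { to_charZero := hczK, to_finiteDimensional := hK }, e, f.finrank_eq⟩

theorem fld : S_fld := by
  classical
  intro A hsimp hcm hpos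
  obtain ⟨S, hS1, hS2, hS3, hS4⟩ := hcm
  have hH : 0 < finrank ℚ A.H := by
    have := A.dim
    omega
  obtain ⟨v0, hv0⟩ := (Module.finrank_pos_iff_exists_ne_zero (R := ℚ) (M := A.H)).1 hH
  have hinj : ∀ s : Module.End ℚ A.H, IsHom A A s → s ≠ 0 → LinearMap.ker s = ⊥ := by
    intro s hs hs0
    rcases hsimp (LinearMap.ker s) (ker_span A s hs) with h | h
    · exact h
    · exact absurd (LinearMap.ker_eq_top.1 h) hs0
  let D := homAlg A
  have hSD : Subalgebra.toSubmodule S ≤ Subalgebra.toSubmodule D := fun s hs => hS1 s hs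
  -- evaluation at a vector
  let ev : Subalgebra.toSubmodule D →ₗ[ℚ] A.H :=
    { toFun := fun d => (d : Module.End ℚ A.H) v0
      map_add' := fun a b => rfl
      map_smul' := fun a b => rfl }
  have hev : Function.Injective ev := by
    rw [← LinearMap.ker_eq_bot, LinearMap.ker_eq_bot']
    intro d hd
    by_contra hne
    have h1 := hinj d.1 d.2 (fun h => hne (Subtype.ext h))
    have h2 : v0 ∈ LinearMap.ker d.1 := hd
    rw [h1] at h2
    exact hv0 ((Submodule.mem_bot ℚ).1 h2)
  have hle : finrank ℚ (Subalgebra.toSubmodule D) ≤ finrank ℚ A.H :=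
    LinearMap.finrank_le_finrank_of_injective hev
  have hS4' : finrank ℚ (Subalgebra.toSubmodule S) = finrank ℚ A.H := hS4
  have hSDeq : Subalgebra.toSubmodule S = Subalgebra.toSubmodule D :=
    Submodule.eq_of_le_of_finrank_le hSD (by rw [hS4']; exact hle)
  have hfin : FiniteDimensional ℚ S :=
    inferInstanceAs (FiniteDimensional ℚ (Subalgebra.toSubmodule S))
  have hfield : IsField S := by
    refine ⟨⟨0, 1, ?_⟩, fun a b => Subtype.ext (hS2 a.1 a.2 b.1 b.2), ?_⟩
    · intro h
      have h1 : (0 : Module.End ℚ A.H) = 1 := congrArg Subtype.val h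
      have h2 : (0 : Module.End ℚ A.H) v0 = (1 : Module.End ℚ A.H) v0 := by rw [h1]
      exact hv0 h2.symm
    · intro a ha
      have h1 := hinj a.1 (hS1 a.1 a.2) (fun h => ha (Subtype.ext h))
      have h2 : Function.Injective (LinearMap.mulLeft ℚ a) := by
        rw [← LinearMap.ker_eq_bot, LinearMap.ker_eq_bot']
        intro b hb
        have h3 : a * b = 0 := hb
        have h4 : a.1 * b.1 = 0 := congrArg Subtype.val h3
        apply Subtype.ext
        apply LinearMap.ext
        intro w
        have h5 : a.1 (b.1 w) = 0 := by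
          have := congrArg (fun g : Module.End ℚ A.H => g w) h4
          exact this
        have h6 : b.1 w ∈ LinearMap.ker a.1 := h5
        rw [h1] at h6
        exact (Submodule.mem_bot ℚ).1 h6
      have h3 : Function.Surjective (LinearMap.mulLeft ℚ a) :=
        LinearMap.surjective_of_injective h2
      obtain ⟨b, hb⟩ := h3 1
      exact ⟨b, hb⟩
  obtain ⟨K, iK, iN, e, hrk⟩ := mk_field S hfin hfield
  refine ⟨K, iK, iN, (S.val : S →+* Module.End ℚ A.H).comp (e : K →+* S), ?_, ?_, ?_⟩
  · intro x
    exact hS1 _ (e x).2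
  · intro s hs
    have h1 : s ∈ Subalgebra.toSubmodule D := hs
    rw [← hSDeq] at h1
    refine ⟨e.symm ⟨s, h1⟩, ?_⟩
    change s = ((e (e.symm ⟨s, h1⟩) : S) : Module.End ℚ A.H)
    rw [RingEquiv.apply_symm_apply]
  · rw [hrk, hS4]

end Pool.Agent.Q177.D3E
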